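import Mathlib
import Pool.Agent.Y827.RO.NarF
/-!
# Near chains of primes for the maps `x ↦ d x + t`
-/

namespace Pool.Agent.R493.AC

open Finset Filter
open Pool.Agent.Y827.GS (cntN cntN_anti Adf)

/-- `1 + d + ... + d ^ (i - 1)` -/
def cc (d : ℤ) (i : ℕ) : ℤ := ∑ j ∈ range i, d ^ j

theorem cc_nonneg {d : ℤ} (hd : 2 ≤ d) (i : ℕ) : 0 ≤ cc d i :=
  Finset.sum_nonneg (fun j _ => by positivity)

theorem cc_lt {d : ℤ} (hd : 2 ≤ d) (i : ℕ) : cc d i < d ^ i := by
  induction i with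
  | zero => simp [cc]
  | succ i ih =>
    have h1 : cc d (i + 1) = cc d i + d ^ i := by unfold cc; rw [Finset.sum_range_succ]
    have h2 : (0 : ℤ) < d ^ i := by positivity
    rw [h1, pow_succ]
    nlinarith

theorem cc_add (d : ℤ) (i j : ℕ) : cc d (i + j) = d ^ j * cc d i + cc d j := by
  unfold cc
  rw [add_comm i j, Finset.sum_range_add]
  simp only [pow_add]
  rw [← Finset.mul_sum]
  ring

/-- the iterates of `x ↦ d x + t` -/
theorem iterate_eq (d t q : ℤ) (i : ℕ) : (fun x : ℤ => d * x + t)^[i] q = d ^ i * q + cc d i * t := by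
  induction i with
  | zero => simp [cc]
  | succ i ih =>
    rw [Function.iterate_succ_apply', ih, cc_add d i 1]
    simp only [cc, Finset.sum_range_one, pow_zero, pow_succ]
    ring

open Classical in
/-- near chains of primes for the maps `x ↦ d x + t` -/
theorem chainsD (d : ℕ) (hd : 2 ≤ d) (k : ℕ) : ∃ B C : ℕ, ∀ᶠ N : ℕ in atTop, ∀ t : ℤ, |t| ≤ N →
    ∃ (I : Finset ℕ) (h : ℕ → ℤ), I ⊆ Icc 1 (18 * k / 5) ∧ I.card = k ∧ (∀ i, |h i| ≤ C) ∧
      (N : ℝ) / (Real.log N) ^ B ≤ (((Icc N (C * N)).filter (fun q : ℕ => q.Prime ∧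
        ∀ i ∈ I, ((d : ℤ) ^ i * (q : ℤ) + cc d i * t + h i).toNat.Prime)).card : ℝ) := by
  have hdz : (2 : ℤ) ≤ d := by exact_mod_cast hd
  obtain ⟨T, hT⟩ : ∃ T : ℕ, T = 18 * k / 5 + 1 := ⟨_, rfl⟩
  obtain ⟨K, hK, hE⟩ := Pool.Agent.Y827.RO.lamRD T
  obtain ⟨P, hP⟩ : ∃ P : ℕ, P = (T * K + d + 4).factorial := ⟨_, rfl⟩
  have hP8 : 8 ≤ P := by
    rw [hP]
    exact (show 8 ≤ (4 : ℕ).factorial by decide).trans (Nat.factorial_le (by omega))
  have hPz : (0 : ℤ) < P := by exact_mod_cast (by omega : 0 < P)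
  obtain ⟨A, hA⟩ : ∃ A : ℕ, A = d ^ T * P := ⟨_, rfl⟩
  obtain ⟨C, hC⟩ : ∃ C : ℕ, C = 8 * A * A + 4 * A * (P * (K + 1)) := ⟨_, rfl⟩
  have h2T : 2 ≤ d ^ T := by
    calc 2 ≤ d := hd
      _ = d ^ 1 := (pow_one d).symm
      _ ≤ d ^ T := Nat.pow_le_pow_right (by omega) (by omega)
  have hA16 : 16 ≤ A := by
    rw [hA]
    calc 16 = 2 * 8 := by norm_num
      _ ≤ d ^ T * P := Nat.mul_le_mul h2T hP8
  refine ⟨T * K + 3, C, ?_⟩
  have ht8 : Tendsto (fun N : ℕ => 4 * A * N) atTop atTop :=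
    tendsto_atTop.2 fun b => by
      filter_upwards [eventually_ge_atTop b] with x hx
      have : 1 ≤ 4 * A := by omega
      nlinarith
  have hlog : ∀ᶠ N : ℕ in atTop, (2 : ℝ) ^ (T * K + 2) ≤ Real.log N :=
    (Real.tendsto_log_atTop.comp tendsto_natCast_atTop_atTop).eventually_ge_atTop _
  filter_upwards [ht8.eventually (hE (by omega) A), hlog,
    eventually_ge_atTop (P * (K + 1) + 10), eventually_ge_atTop (4 * A)] with N hN hlogN hNl hNA t ht
  -- the shifts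
  obtain ⟨s, hs⟩ : ∃ s : Fin T → Fin K → ℤ, ∀ g i, s g i =
      (1 - cc d g * t) % P + P * ((i : ℕ) : ℤ) := ⟨_, fun _ _ => rfl⟩
  have hs0 : ∀ g i, 0 ≤ s g i ∧ s g i < P * (K + 1) := by
    intro g i
    rw [hs]
    have h1 := Int.emod_nonneg (1 - cc d g * t) hPz.ne'
    have h2 := Int.emod_lt_of_pos (1 - cc d g * t) hPz
    have h3 : (((i : ℕ) : ℤ)) + 1 ≤ K := by exact_mod_cast i.2
    have h4 : (0 : ℤ) ≤ ((i : ℕ) : ℤ) := Int.natCast_nonneg _
    constructor
    · positivity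
    · nlinarith
  have hgT : ∀ g : Fin T, (d : ℤ) ^ (g : ℕ) ≤ d ^ T := fun g =>
    pow_le_pow_right₀ (by linarith) g.2.le
  have hg1 : ∀ g : Fin T, (1 : ℤ) ≤ (d : ℤ) ^ (g : ℕ) := fun g => one_le_pow₀ (by linarith)
  have hNz : ((P : ℤ) * (K + 1) + 10 : ℤ) ≤ N := by exact_mod_cast hNl
  have hPK : (0 : ℤ) < (P : ℤ) * (K + 1) := by positivity
  have hP8z : (8 : ℤ) ≤ P := by exact_mod_cast hP8
  have hN0 : (0 : ℤ) < N := by linarith
  have hAz : (A : ℤ) = d ^ T * P := by rw [hA]; push_cast; ring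
  -- the constant terms
  obtain ⟨b, hb⟩ : ∃ b : Fin T → Fin K → ℤ, ∀ g i, b g i =
      (d : ℤ) ^ (g : ℕ) * P * N + (cc d g * t + s g i) := ⟨_, fun _ _ => rfl⟩
  have habs : ∀ g : Fin T, |cc d g * t| ≤ cc d g * N := by
    intro g
    rw [abs_mul, abs_of_nonneg (cc_nonneg hdz g)]
    exact mul_le_mul_of_nonneg_left ht (cc_nonneg hdz g)
  have hblow : ∀ g i, (N : ℤ) ≤ b g i := by
    intro g i
    rw [hb]
    have h1 := (abs_le.1 (habs g)).1
    have h2 := (hs0 g i).1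
    have h3 : (d : ℤ) ^ (g : ℕ) * 8 * (N : ℤ) ≤ (d : ℤ) ^ (g : ℕ) * P * N :=
      mul_le_mul_of_nonneg_right (mul_le_mul_of_nonneg_left hP8z (by positivity)) hN0.le
    have h4 : 1 * (N : ℤ) ≤ (d : ℤ) ^ (g : ℕ) * N := mul_le_mul_of_nonneg_right (hg1 g) hN0.le
    have h5 : cc d g * (N : ℤ) ≤ (d : ℤ) ^ (g : ℕ) * N :=
      mul_le_mul_of_nonneg_right (cc_lt hdz g).le hN0.le
    linarith
  have hbup : ∀ g i, b g i ≤ 3 * A * N := by
    intro g i
    rw [hb]
    have h1 := (abs_le.1 (habs g)).2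
    have h2 := (hs0 g i).2
    have h3 : (d : ℤ) ^ (g : ℕ) * P * (N : ℤ) ≤ A * N := by
      rw [hAz]
      exact mul_le_mul_of_nonneg_right (mul_le_mul_of_nonneg_right (hgT g) hPz.le) hN0.le
    have h4 : cc d g * (N : ℤ) ≤ A * N := by
      apply mul_le_mul_of_nonneg_right _ hN0.le
      have h5 : (d : ℤ) ^ T * 1 ≤ d ^ T * P := mul_le_mul_of_nonneg_left (by linarith) (by positivity)
      rw [hAz]
      linarith [hgT g, cc_lt hdz g]
    have h5 : (N : ℤ) ≤ A * N := by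
      have : (1 : ℤ) ≤ A := by exact_mod_cast (by omega : 1 ≤ A)
      nlinarith
    linarith
  obtain ⟨S, σ, hS, hcnt⟩ := hN (fun g i => ((d : ℤ) ^ (g : ℕ) * (P : ℤ), b g i))
    (by
      rintro ⟨g, i⟩ ⟨g', i'⟩ h
      simp only [Prod.mk.injEq] at h
      obtain ⟨h1, h2⟩ := h
      have h3 := mul_right_cancel₀ hPz.ne' h1
      have h4 : (g : ℕ) = (g' : ℕ) := by
        have : d ^ (g : ℕ) = d ^ (g' : ℕ) := by exact_mod_cast h3
        exact Nat.pow_right_injective hd this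
      have h5 : g = g' := Fin.ext h4
      subst h5
      rw [hb, hb, add_right_inj, add_right_inj, hs, hs, add_right_inj] at h2
      have h6 := mul_left_cancel₀ hPz.ne' h2
      have h7 : (i : ℕ) = (i' : ℕ) := by exact_mod_cast h6
      rw [Fin.ext h7])
    (fun g i => by
      have hcop : ∀ p : ℕ, p.Prime → (p : ℤ) ∣ P → ¬ (p : ℤ) ∣ b g i := by
        intro p hp hpP hd
        have h2 : b g i =
            1 + P * ((d : ℤ) ^ (g : ℕ) * N + (((i : ℕ) : ℤ) - (1 - cc d g * t) / P)) := by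
          rw [hb, hs]
          have h3 := Int.emod_add_mul_ediv (1 - cc d g * t) P
          linear_combination h3
        rw [h2] at hd
        have h1 : (p : ℤ) ∣ 1 := (Int.dvd_add_left (hpP.mul_right _)).1 hd
        have h3 : (p : ℤ) ∣ ((1 : ℕ) : ℤ) := by exact_mod_cast h1
        rw [Int.natCast_dvd_natCast] at h3
        exact hp.one_lt.ne' (Nat.dvd_one.1 h3)
      refine ⟨by positivity, ?_, ?_, ?_, ?_⟩
      · rw [abs_of_pos (by positivity), hAz]
        exact mul_le_mul_of_nonneg_right (hgT g) hPz.le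
      · rw [abs_of_nonneg (hN0.le.trans (hblow g i))]
        push_cast
        have h1 := hbup g i
        have h2 : (0 : ℤ) ≤ A * N := by positivity
        linarith
      · rw [Int.isCoprime_iff_gcd_eq_one]
        by_contra hne
        obtain ⟨p, hp, hpd⟩ := Nat.exists_prime_and_dvd hne
        have h1 : (p : ℤ) ∣ (Int.gcd ((d : ℤ) ^ (g : ℕ) * P) (b g i) : ℤ) := Int.natCast_dvd_natCast.2 hpd
        have h2 := h1.trans (Int.gcd_dvd_left _ _)
        have h3 := h1.trans (Int.gcd_dvd_right _ _)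
        apply hcop p hp _ h3
        rcases (Nat.prime_iff_prime_int.1 hp).dvd_or_dvd h2 with h4 | h4
        · have h5 : (p : ℤ) ∣ d := (Nat.prime_iff_prime_int.1 hp).dvd_of_dvd_pow h4
          have h6 : (d : ℤ) ∣ P := by
            rw [hP]
            exact_mod_cast Nat.dvd_factorial (by omega) (by omega)
          exact h5.trans h6
        · exact h4
      · intro y hy1 _
        have h1 : (0 : ℝ) ≤ (b g i : ℝ) := by exact_mod_cast hN0.le.trans (hblow g i)
        have h2 : (8 : ℝ) ≤ (d : ℝ) ^ (g : ℕ) * P := by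
          have : (8 : ℤ) ≤ (d : ℤ) ^ (g : ℕ) * P := by nlinarith [hg1 g]
          exact_mod_cast this
        have h3 : (0 : ℝ) ≤ ((4 * A * N : ℕ) : ℝ) := Nat.cast_nonneg _
        have h4 : 8 * y ≤ (d : ℝ) ^ (g : ℕ) * P * y := mul_le_mul_of_nonneg_right h2 (by linarith)
        push_cast at h3 hy1 ⊢
        linarith)
    (by
      intro p hp hpK
      have hpP : (p : ℤ) ∣ P := by
        rw [hP]
        exact_mod_cast Nat.dvd_factorial hp.pos (by omega)
      refine ⟨0, fun g i hd => ?_⟩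
      simp only [mul_zero, zero_add] at hd
      have h2 : b g i =
          1 + P * ((d : ℤ) ^ (g : ℕ) * N + (((i : ℕ) : ℤ) - (1 - cc d g * t) / P)) := by
        rw [hb, hs]
        have h3 := Int.emod_add_mul_ediv (1 - cc d g * t) P
        linear_combination h3
      rw [h2] at hd
      have h1 : (p : ℤ) ∣ 1 := (Int.dvd_add_left (hpP.mul_right _)).1 hd
      have h3 : (p : ℤ) ∣ ((1 : ℕ) : ℤ) := by exact_mod_cast h1
      rw [Int.natCast_dvd_natCast] at h3
      exact hp.one_lt.ne' (Nat.dvd_one.1 h3))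
  have hScard : k + 1 ≤ S.card := by
    have h1 : (5 * T : ℝ) ≤ 18 * S.card := by linarith
    have h2 : 5 * T ≤ 18 * S.card := by exact_mod_cast h1
    omega
  have hSne : S.Nonempty := card_pos.1 (by omega)
  obtain ⟨g, hg⟩ : ∃ g, g = S.min' hSne := ⟨_, rfl⟩
  have hgS : g ∈ S := by rw [hg]; exact S.min'_mem hSne
  have hgmin : ∀ g' ∈ S, g ≤ g' := fun g' h' => by rw [hg]; exact S.min'_le g' h'
  obtain ⟨S', hS'1, hS'2⟩ : ∃ S' ⊆ S.erase g, S'.card = k :=
    exists_subset_card_eq (by rw [card_erase_of_mem hgS]; omega)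
  obtain ⟨I, hI⟩ : ∃ I : Finset ℕ, I = S'.image (fun g' : Fin T => (g' : ℕ) - g) := ⟨_, rfl⟩
  obtain ⟨h, hh⟩ : ∃ h : ℕ → ℤ, ∀ i, h i =
      if hi : (g : ℕ) + i < T then s ⟨g + i, hi⟩ (σ ⟨g + i, hi⟩) - (d : ℤ) ^ i * s g (σ g) else 0 :=
    ⟨_, fun _ => rfl⟩
  have hS'lt : ∀ g' ∈ S', g < g' := fun g' h' => by
    have h1 := mem_erase.1 (hS'1 h')
    exact lt_of_le_of_ne (hgmin g' h1.2) (Ne.symm h1.1)
  refine ⟨I, h, ?_, ?_, ?_, ?_⟩
  · intro i hi
    rw [hI] at hi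
    obtain ⟨g', hg', rfl⟩ := mem_image.1 hi
    have h1 : (g : ℕ) < g' := hS'lt g' hg'
    have h2 := g'.2
    rw [mem_Icc]
    omega
  · rw [hI, card_image_of_injOn, hS'2]
    intro x hx y hy hxy
    have h1 : (g : ℕ) < x := hS'lt x hx
    have h2 : (g : ℕ) < y := hS'lt y hy
    have h3 : (x : ℕ) - g = (y : ℕ) - g := hxy
    exact Fin.ext (by omega)
  · intro i
    rw [hh]
    have hCz : (C : ℤ) = 8 * A * A + 4 * A * (P * (K + 1)) := by rw [hC]; push_cast; ring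
    split_ifs with hi
    · obtain ⟨a1, a2⟩ := hs0 g (σ g)
      obtain ⟨b1, b2⟩ := hs0 ⟨g + i, hi⟩ (σ ⟨g + i, hi⟩)
      have h1 : (d : ℤ) ^ i ≤ A := by
        rw [hAz]
        calc (d : ℤ) ^ i ≤ d ^ T := pow_le_pow_right₀ (by linarith) (by omega)
          _ = d ^ T * 1 := by ring
          _ ≤ d ^ T * P := mul_le_mul_of_nonneg_left (by linarith) (by positivity)
      have h3 : (d : ℤ) ^ i * s g (σ g) ≤ A * (P * (K + 1)) :=
        mul_le_mul h1 a2.le a1 (by positivity)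
      have h4 : 0 ≤ (d : ℤ) ^ i * s g (σ g) := mul_nonneg (by positivity) a1
      have h5 : (P : ℤ) * (K + 1) ≤ A * (P * (K + 1)) := by
        have : (1 : ℤ) ≤ A := by exact_mod_cast (by omega : 1 ≤ A)
        nlinarith
      have h6 : (0 : ℤ) ≤ A * A := by positivity
      rw [hCz, abs_le]
      constructor <;> linarith
    · rw [abs_zero]
      exact Int.natCast_nonneg _
  -- the counting
  have hNr : (10 : ℝ) ≤ N := by exact_mod_cast (by omega : 10 ≤ N)
  have hlog1 : 1 ≤ Real.log N := le_trans (one_le_pow₀ (by norm_num)) hlogN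
  have hbound : (N : ℝ) / (Real.log N) ^ (T * K + 3) ≤
      ((4 * A * N : ℕ) : ℝ) / (Real.log ((4 * A * N : ℕ) : ℝ)) ^ (T * K + 2) := by
    have h1 : Real.log ((4 * A * N : ℕ) : ℝ) ≤ 2 * Real.log N := by
      have h2 : ((4 * A * N : ℕ) : ℝ) ≤ (N : ℝ) ^ 2 := by
        have : 4 * A * N ≤ N ^ 2 := by nlinarith
        exact_mod_cast this
      have h3 : (0 : ℝ) < ((4 * A * N : ℕ) : ℝ) := by
        have : 0 < 4 * A * N := Nat.mul_pos (by omega) (by omega)
        exact_mod_cast this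
      have h4 := Real.log_le_log h3 h2
      rwa [Real.log_pow] at h4
    have h2 : (N : ℝ) ≤ ((4 * A * N : ℕ) : ℝ) := by
      have : N ≤ 4 * A * N := by nlinarith
      exact_mod_cast this
    have h3 : 0 < Real.log ((4 * A * N : ℕ) : ℝ) := Real.log_pos (by linarith)
    have hl0 : 0 < Real.log (N : ℝ) := by linarith
    rw [div_le_div_iff₀ (by positivity) (by positivity)]
    have h4 : (Real.log ((4 * A * N : ℕ) : ℝ)) ^ (T * K + 2) ≤ (2 * Real.log N) ^ (T * K + 2) :=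
      pow_le_pow_left₀ h3.le h1 _
    calc (N : ℝ) * (Real.log ((4 * A * N : ℕ) : ℝ)) ^ (T * K + 2)
        ≤ N * (2 * Real.log N) ^ (T * K + 2) := mul_le_mul_of_nonneg_left h4 (by linarith)
      _ = N * (2 ^ (T * K + 2) * (Real.log N) ^ (T * K + 2)) := by rw [mul_pow]
      _ ≤ N * (Real.log N * (Real.log N) ^ (T * K + 2)) := by gcongr
      _ = N * (Real.log N) ^ (T * K + 3) := by ring
      _ ≤ ((4 * A * N : ℕ) : ℝ) * (Real.log N) ^ (T * K + 3) :=
          mul_le_mul_of_nonneg_right h2 (by positivity)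
  refine hbound.trans (hcnt.trans ?_)
  rw [Nat.cast_le]
  unfold cntN
  have hpos : ∀ z : ℤ, z.toNat.Prime → 0 < z := by
    intro z hz
    by_contra h3
    rw [Int.toNat_of_nonpos (not_lt.1 h3)] at hz
    exact Nat.not_prime_zero hz
  refine card_le_card_of_injOn
    (fun n : ℕ => ((d : ℤ) ^ (g : ℕ) * P * (n : ℤ) + b g (σ g)).toNat) ?_ ?_
  · intro n hn
    obtain ⟨h4, h5⟩ := mem_filter.1 (mem_coe.1 hn)
    rw [mem_Icc] at h4
    have k1 := h5 _ (mem_image.2 ⟨g, hgS, rfl⟩)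
    simp only at k1
    have k3 := hpos _ k1
    rw [mem_coe, mem_filter, mem_Icc]
    beta_reduce
    obtain ⟨q, hq⟩ : ∃ q : ℕ, q = ((d : ℤ) ^ (g : ℕ) * P * (n : ℤ) + b g (σ g)).toNat := ⟨_, rfl⟩
    have hqz : (q : ℤ) = (d : ℤ) ^ (g : ℕ) * P * (n : ℤ) + b g (σ g) := by
      rw [hq]; exact Int.toNat_of_nonneg k3.le
    have hn0 : (0 : ℤ) ≤ n := Int.natCast_nonneg _
    rw [← hq]
    refine ⟨⟨?_, ?_⟩, ?_, ?_⟩
    · have : (N : ℤ) ≤ q := by
        rw [hqz]
        have h6 := hblow g (σ g)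
        have h7 : (0 : ℤ) ≤ (d : ℤ) ^ (g : ℕ) * P * n := by positivity
        linarith
      exact_mod_cast this
    · have : (q : ℤ) ≤ C * N := by
        rw [hqz]
        have hCz : (C : ℤ) = 8 * A * A + 4 * A * (P * (K + 1)) := by rw [hC]; push_cast; ring
        have h6 := hbup g (σ g)
        have h7 : (n : ℤ) ≤ 4 * A * N := by exact_mod_cast h4.2
        have h8 : (d : ℤ) ^ (g : ℕ) * P * (n : ℤ) ≤ A * (4 * A * N) := by
          apply mul_le_mul _ h7 hn0 (by positivity)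
          rw [hAz]
          exact mul_le_mul_of_nonneg_right (hgT g) hPz.le
        have h9 : (0 : ℤ) ≤ 4 * A * (P * (K + 1)) * N := by positivity
        have h10 : 3 * (A : ℤ) * N ≤ 3 * A * A * N := by
          have h11 : (1 : ℤ) ≤ A := by exact_mod_cast (by omega : 1 ≤ A)
          have h12 : 3 * (A : ℤ) * N * 1 ≤ 3 * A * N * A :=
            mul_le_mul_of_nonneg_left h11 (by positivity)
          linarith
        have h13 : (0 : ℤ) ≤ A * A * N := by positivity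
        rw [hCz]
        nlinarith
      exact_mod_cast this
    · rw [hq]; exact k1
    · intro i hi
      rw [hI] at hi
      obtain ⟨g', hg', rfl⟩ := mem_image.1 hi
      have h1 : (g : ℕ) < g' := hS'lt g' hg'
      have h2 : (g : ℕ) + ((g' : ℕ) - g) = g' := by omega
      have h3 : (g : ℕ) + ((g' : ℕ) - g) < T := by rw [h2]; exact g'.2
      have k2 := h5 _ (mem_image.2 ⟨g', (mem_erase.1 (hS'1 hg')).2, rfl⟩)
      simp only at k2
      rw [hh, dif_pos h3]
      have h6 : (⟨(g : ℕ) + ((g' : ℕ) - g), h3⟩ : Fin T) = g' := Fin.ext h2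
      rw [h6]
      have h7 : (d : ℤ) ^ (g' : ℕ) = (d : ℤ) ^ (g : ℕ) * (d : ℤ) ^ ((g' : ℕ) - g) := by
        rw [← pow_add, h2]
      have e1 : (d : ℤ) ^ ((g' : ℕ) - g) * (q : ℤ) + cc d ((g' : ℕ) - g) * t +
          (s g' (σ g') - (d : ℤ) ^ ((g' : ℕ) - g) * s g (σ g)) =
          (d : ℤ) ^ (g' : ℕ) * P * (n : ℤ) + b g' (σ g') := by
        have h8 := cc_add (d : ℤ) g ((g' : ℕ) - g)
        rw [h2] at h8
        rw [hqz, hb, hb, h7, h8]
        ring
      rw [e1]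
      exact k2
  · intro n hn n' hn' hnn
    have k1 := hpos _ ((mem_filter.1 (mem_coe.1 hn)).2 _ (mem_image.2 ⟨g, hgS, rfl⟩))
    have k2 := hpos _ ((mem_filter.1 (mem_coe.1 hn')).2 _ (mem_image.2 ⟨g, hgS, rfl⟩))
    simp only at k1 k2 hnn
    have e1 : (d : ℤ) ^ (g : ℕ) * (P : ℤ) * (n : ℤ) + b g (σ g) =
        (d : ℤ) ^ (g : ℕ) * (P : ℤ) * (n' : ℤ) + b g (σ g) := by
      rw [← Int.toNat_of_nonneg k1.le, ← Int.toNat_of_nonneg k2.le]
      exact_mod_cast hnn
    have e2 := add_right_cancel e1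
    have e3 : (d : ℤ) ^ (g : ℕ) * P ≠ 0 := by positivity
    exact_mod_cast mul_left_cancel₀ e3 e2

end Pool.Agent.R493.AC
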